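import Pool.Agent.H76.SW.T

/-!
Module S6 (semantic tree-width): an occurrence of a term is satisfied in the canonical database.
-/

namespace Pool.Agent.H3.STW

open Pool.Agent.H76.SW

theorem pf_S6 (h1 : U_s4_child) (h2 : U_s7_node) : U_s6_sat := by
  intro A P gs T
  induction T with
  | edge a =>
    intro ι h
    refine ⟨_, _, rfl, rfl, ?_⟩
    exact h.step _ _ _ (Or.inl ⟨rfl, rfl, rfl⟩)
  | node n m src tgt ch p q ih =>
    intro ι h
    refine ⟨fun v => cl gs (ι (Sum.inl v)), fun i => ?_, rfl, rfl⟩
    have hc := ih i (fun x => ι (Sum.inr ⟨i, x⟩)) (h1 gs h i)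
    have e0 := (h2 gs h i false).2.2
    have e1 := (h2 gs h i true).2.2
    simp only [Bool.false_eq_true, if_false, if_true] at e0 e1
    rw [e0, e1] at hc
    exact hc

end Pool.Agent.H3.STW
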