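import Pool.Agent.H76.SW.T

/-!
Modules S7 and S6 of the board stw_modules (semantic tree-width): silent links of a node and
satisfaction of a term in the canonical database.
-/

namespace Pool.Agent.H3.STW

open Pool.Agent.H76.SW

theorem pf_S7 : U_s7_node := by
  intro A P gs n m src tgt ch p q ι h i c
  have h1 : gs (ι (Sum.inl (if c then tgt i else src i))) none (ι (Sum.inr ⟨i, (ch i).pt c⟩)) := by
    refine h.step _ _ _ ?_
    exact Or.inr ⟨rfl, i, c, Or.inl ⟨rfl, rfl⟩⟩
  have h2 : gs (ι (Sum.inr ⟨i, (ch i).pt c⟩)) none (ι (Sum.inl (if c then tgt i else src i))) := by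
    refine h.step _ _ _ ?_
    exact Or.inr ⟨rfl, i, c, Or.inr ⟨rfl, rfl⟩⟩
  exact ⟨h1, h2, Quot.sound h2⟩

end Pool.Agent.H3.STW
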